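import Pool.Agent.helper22.RG9.Spec

/-!
# Row rg9:BRA: the bracket of two logarithms
-/

set_option autoImplicit false

namespace Pool.Agent.RG9

open Matrix Pool.Agent.H48SL Pool.Agent.UG

/-- the identity in the group -/
theorem BRA_grp {G : Type} [Group G] (x y c : G) (hc : c = x * y * x⁻¹ * y⁻¹) (hcx : c * x = x * c)
    (hcy : c * y = y * c) (i j : ℕ) : x ^ i * y ^ j = c ^ (i * j) * (y ^ j * x ^ i) := by
  have hx : Commute c x := hcx
  have hy : Commute c y := hcy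
  have hxy : x * y = c * (y * x) := by rw [hc]; group
  have h1 : ∀ i : ℕ, x ^ i * y = c ^ i * (y * x ^ i) := by
    intro i
    induction i with
    | zero => simp
    | succ i ih =>
      calc x ^ (i + 1) * y = x * (x ^ i * y) := by rw [pow_succ', mul_assoc]
        _ = x * c ^ i * (y * x ^ i) := by rw [ih, mul_assoc]
        _ = c ^ i * (x * y) * x ^ i := by rw [← (hx.pow_left i).eq]; simp only [mul_assoc]
        _ = c ^ i * (c * (y * x)) * x ^ i := by rw [hxy]
        _ = c ^ (i + 1) * (y * x ^ (i + 1)) := by rw [pow_succ, pow_succ' x]; simp only [mul_assoc]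
  induction j with
  | zero => simp
  | succ j ih =>
    calc x ^ i * y ^ (j + 1) = (x ^ i * y ^ j) * y := by rw [pow_succ, mul_assoc]
      _ = c ^ (i * j) * y ^ j * (x ^ i * y) := by rw [ih]; simp only [mul_assoc]
      _ = c ^ (i * j) * (y ^ j * c ^ i) * (y * x ^ i) := by rw [h1 i]; simp only [mul_assoc]
      _ = c ^ (i * j) * (c ^ i * y ^ j) * (y * x ^ i) := by rw [((hy.pow_pow i j).eq)]
      _ = c ^ (i * j + i) * (y ^ (j + 1) * x ^ i) := by rw [pow_add, pow_succ]; simp only [mul_assoc]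
      _ = _ := by rw [Nat.mul_succ]

/-- comparison of the coefficients -/
theorem BRA_coef {n : ℕ} (A B K : MQ n) (hA : IsNilpotent A)
    (h : ∀ t : ℕ, IsNilpotent.exp ((t : ℚ) • A) * B = (B + (t : ℚ) • K) * IsNilpotent.exp ((t : ℚ) • A)) :
    A * B - B * A = K := by
  obtain ⟨k, hk⟩ := hA
  have hM : A ^ (k + 2) = 0 := by rw [pow_add, hk, zero_mul]
  have hexp : ∀ t : ℕ, IsNilpotent.exp ((t : ℚ) • A) =
      ∑ i ∈ Finset.range (k + 2), ((t : ℚ) ^ i * ((i.factorial : ℚ))⁻¹) • A ^ i := by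
    intro t
    have h1 : ((t : ℚ) • A) ^ (k + 2) = 0 := by rw [smul_pow, hM, smul_zero]
    rw [IsNilpotent.exp_eq_sum h1]
    refine Finset.sum_congr rfl fun i _ => ?_
    rw [smul_pow, smul_smul, mul_comm]
  ext r s
  let p : Polynomial ℚ := ∑ i ∈ Finset.range (k + 2),
      Polynomial.C ((i.factorial : ℚ)⁻¹ * ((A ^ i * B) r s - (B * A ^ i) r s)) * Polynomial.X ^ i -
    ∑ i ∈ Finset.range (k + 2), Polynomial.C ((i.factorial : ℚ)⁻¹ * (K * A ^ i) r s) * Polynomial.X ^ (i + 1)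
  have hp : ∀ t : ℕ, p.eval (t : ℚ) = 0 := by
    intro t
    have h1 := congrFun (congrFun (h t) r) s
    rw [hexp t, Finset.sum_mul, add_mul, Finset.mul_sum, Finset.mul_sum, Matrix.add_apply, Matrix.sum_apply,
      Matrix.sum_apply, Matrix.sum_apply] at h1
    have h2 : p.eval (t : ℚ) = ∑ i ∈ Finset.range (k + 2),
        ((i.factorial : ℚ)⁻¹ * ((A ^ i * B) r s - (B * A ^ i) r s)) * (t : ℚ) ^ i -
        ∑ i ∈ Finset.range (k + 2), ((i.factorial : ℚ)⁻¹ * (K * A ^ i) r s) * (t : ℚ) ^ (i + 1) := by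
      simp [p, Polynomial.eval_finsetSum]
    rw [h2]
    have e1 : ∑ i ∈ Finset.range (k + 2), ((((t : ℚ) ^ i * ((i.factorial : ℚ))⁻¹) • A ^ i) * B) r s =
        ∑ i ∈ Finset.range (k + 2), (i.factorial : ℚ)⁻¹ * (A ^ i * B) r s * (t : ℚ) ^ i := by
      refine Finset.sum_congr rfl fun i _ => ?_
      rw [smul_mul_assoc, Matrix.smul_apply, smul_eq_mul]
      ring
    have e2 : ∑ i ∈ Finset.range (k + 2), (B * (((t : ℚ) ^ i * ((i.factorial : ℚ))⁻¹) • A ^ i)) r s =
        ∑ i ∈ Finset.range (k + 2), (i.factorial : ℚ)⁻¹ * (B * A ^ i) r s * (t : ℚ) ^ i := by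
      refine Finset.sum_congr rfl fun i _ => ?_
      rw [mul_smul_comm, Matrix.smul_apply, smul_eq_mul]
      ring
    have e3 : ∑ i ∈ Finset.range (k + 2), (((t : ℚ) • K) * (((t : ℚ) ^ i * ((i.factorial : ℚ))⁻¹) • A ^ i)) r s =
        ∑ i ∈ Finset.range (k + 2), (i.factorial : ℚ)⁻¹ * (K * A ^ i) r s * (t : ℚ) ^ (i + 1) := by
      refine Finset.sum_congr rfl fun i _ => ?_
      rw [mul_smul_comm, smul_mul_assoc, Matrix.smul_apply, Matrix.smul_apply, smul_eq_mul, smul_eq_mul]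
      ring
    rw [e1, e2, e3] at h1
    have e4 : ∑ i ∈ Finset.range (k + 2), ((i.factorial : ℚ)⁻¹ * ((A ^ i * B) r s - (B * A ^ i) r s)) * (t : ℚ) ^ i =
        ∑ i ∈ Finset.range (k + 2), (i.factorial : ℚ)⁻¹ * (A ^ i * B) r s * (t : ℚ) ^ i -
        ∑ i ∈ Finset.range (k + 2), (i.factorial : ℚ)⁻¹ * (B * A ^ i) r s * (t : ℚ) ^ i := by
      rw [← Finset.sum_sub_distrib]
      refine Finset.sum_congr rfl fun i _ => ?_
      ring
    rw [e4, h1]
    ring
  have hp0 : p = 0 := by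
    apply Polynomial.eq_zero_of_infinite_isRoot
    refine Set.infinite_of_injective_forall_mem (f := fun t : ℕ => (t : ℚ)) Nat.cast_injective fun t => ?_
    exact hp t
  have hc : p.coeff 1 = (A * B) r s - (B * A) r s - K r s := by
    have c1 : p.coeff 1 = (∑ i ∈ Finset.range (k + 2),
        ((i.factorial : ℚ)⁻¹ * ((A ^ i * B) r s - (B * A ^ i) r s)) * (if 1 = i then 1 else 0)) -
        ∑ i ∈ Finset.range (k + 2), ((i.factorial : ℚ)⁻¹ * (K * A ^ i) r s) * (if 1 = i + 1 then 1 else 0) := by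
      simp only [p, Polynomial.coeff_sub, Polynomial.finsetSum_coeff, Polynomial.coeff_C_mul, Polynomial.coeff_X_pow]
    rw [c1, Finset.sum_eq_single 1, Finset.sum_eq_single 0]
    · simp
    · intro i _ hi
      rw [if_neg (by omega), mul_zero]
    · intro h0
      exact absurd (Finset.mem_range.2 (by omega)) h0
    · intro i _ hi
      rw [if_neg (by omega), mul_zero]
    · intro h0
      exact absurd (Finset.mem_range.2 (by omega)) h0
  rw [hp0, Polynomial.coeff_zero] at hc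
  rw [Matrix.sub_apply]
  linarith

theorem BRA (hLGF : LGF_stmt) : BRA_stmt := by
  intro n L x y c hc hcx hcy hx hy hz
  obtain ⟨l1, l2, -, l4, l5, -, -, -⟩ := hLGF n
  have hcx' : Commute c x := hcx
  have hcy' : Commute c y := hcy
  -- the group identity
  have hg : x ^ L * y ^ L * (x ^ L)⁻¹ = (c ^ L) ^ L * y ^ L := by
    rw [BRA_grp x y c hc hcx hcy L L, pow_mul]
    group
  have e1 := (l5 (y ^ L) (x ^ L) hy).2
  have e2 := (l2 ((c ^ L) ^ L) (y ^ L) (l4 _ hz L).1 hy (((hcy'.pow_pow L L).pow_left L).eq)).2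
  rw [hg, e2, (l4 _ hz L).2] at e1
  -- `qg a * B = (B + K) * qg a`
  have hE : qg (x ^ L) * lg (y ^ L) = (lg (y ^ L) + (L : ℚ) • lg (c ^ L)) * qg (x ^ L) := by
    have h1 := congrArg (fun M => M * qg (x ^ L)) e1
    simp only [mul_assoc, qg_inv_mul, mul_one] at h1
    rw [← h1, add_comm]
  have hC : qg (x ^ L) * lg (c ^ L) = lg (c ^ L) * qg (x ^ L) := by
    apply (l1 (c ^ L) hz).2.2
    rw [← qg_mul, ← qg_mul, (hcx'.pow_pow L L).eq]
  have hpow : ∀ t : ℕ, qg (x ^ L) ^ t * lg (y ^ L) =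
      (lg (y ^ L) + (t : ℚ) • ((L : ℚ) • lg (c ^ L))) * qg (x ^ L) ^ t := by
    intro t
    induction t with
    | zero => simp
    | succ t ih =>
      have h1 : qg (x ^ L) * ((t : ℚ) • ((L : ℚ) • lg (c ^ L))) = ((t : ℚ) • ((L : ℚ) • lg (c ^ L))) * qg (x ^ L) := by
        rw [mul_smul_comm, mul_smul_comm, hC, smul_mul_assoc, smul_mul_assoc]
      calc qg (x ^ L) ^ (t + 1) * lg (y ^ L) = qg (x ^ L) * (qg (x ^ L) ^ t * lg (y ^ L)) := by
            rw [pow_succ', mul_assoc]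
        _ = (qg (x ^ L) * lg (y ^ L) + qg (x ^ L) * ((t : ℚ) • ((L : ℚ) • lg (c ^ L)))) * qg (x ^ L) ^ t := by
            rw [ih, ← mul_assoc, mul_add]
        _ = ((lg (y ^ L) + (L : ℚ) • lg (c ^ L)) + (t : ℚ) • ((L : ℚ) • lg (c ^ L))) * (qg (x ^ L) * qg (x ^ L) ^ t) := by
            rw [hE, h1, ← add_mul, mul_assoc]
        _ = (lg (y ^ L) + ((t + 1 : ℕ) : ℚ) • ((L : ℚ) • lg (c ^ L))) * qg (x ^ L) ^ (t + 1) := by
            rw [← pow_succ']
            congr 1
            push_cast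
            rw [add_smul, one_smul]
            abel
  apply BRA_coef _ _ _ (l1 _ hx).1
  intro t
  have h1 : IsNilpotent.exp ((t : ℚ) • lg (x ^ L)) = qg (x ^ L) ^ t := by
    rw [← (l4 _ hx t).2, (l1 _ (l4 _ hx t).1).2.1, qg_pow]
  rw [h1]
  exact hpow t

end Pool.Agent.RG9
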